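import Pool.Agent.Helper6.OB.Goals

/-!
# Project OB, packet LST
-/

set_option autoImplicit false

namespace Pool.Agent.Helper86.OB

open Pool.Agent.Helper6.CS
open Pool.Agent.Helper6.OB

set_option synthInstance.maxSize 1000000000

theorem t_LST : Pool.Agent.Helper6.OB.G_LST := by
  intro hLMO M _ a b ρ N H G Φ hS hΦ
  have hG : IP M fun p : M × (Wd M × Wd M) => G p.1 p.2 := hS.ip
  have h1 := (hLMO M a b H G Φ hS).1
  have iLam : IP M fun p : M × Wd M => Lam a b G Φ p.1 p.2 := ipLam a b G Φ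
  have iLamA : IP M fun D : Wd M => LamA a b G Φ D := ipLamA a b G Φ
  have iL1 : IP M fun p : M × M => Lam a b G Φ p.2 (dec p.1) := by
    have hf : IFn M fun p : M × M => (p.2, dec p.1) := inferInstance
    exact IP.comp (P := fun p : M × Wd M => Lam a b G Φ p.1 p.2) iLam hf
  have iL2 : IP M fun p : M × M => LamA a b G Φ (dec p.1) := by
    have hf : IFn M fun p : M × M => (dec p.1 : Wd M) := inferInstance
    exact IP.comp (P := fun D : Wd M => LamA a b G Φ D) iLamA hf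
  let R : M → M → Prop := fun i m =>
    Over ρ (dec i) ∧ (dec i).len = N ∧ ¬ LamA a b G Φ (dec i) → ¬ Lam a b G Φ m (dec i)
  have iR : IP M fun p : M × M => R p.1 p.2 := by
    change IP M fun p : M × M => Over ρ (dec p.1) ∧ (dec p.1).len = N ∧
      ¬ LamA a b G Φ (dec p.1) → ¬ Lam a b G Φ p.2 (dec p.1)
    infer_instance
  obtain ⟨B, hB⟩ := coll R (nb ρ N) (fun i _ => by
    by_cases h : Over ρ (dec i) ∧ (dec i).len = N ∧ ¬ LamA a b G Φ (dec i)
    · have h2 := h.2.2
      unfold LamA at h2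
      push Not at h2
      obtain ⟨m, hm⟩ := h2
      exact ⟨m, fun _ => hm⟩
    · exact ⟨0, fun h' => absurd h' h⟩)
  refine ⟨B, fun D hD hl hL => ?_⟩
  by_contra hc
  obtain ⟨m, hm, hR⟩ := hB (Cod.cd D) (nb_spec hD (le_of_eq hl))
  have hR' : Over ρ (dec (Cod.cd D : M)) ∧ (dec (Cod.cd D : M)).len = N ∧
      ¬ LamA a b G Φ (dec (Cod.cd D : M)) → ¬ Lam a b G Φ m (dec (Cod.cd D : M)) := hR
  rw [dec_cd] at hR'
  exact hR' ⟨hD, hl, hc⟩ (h1 m B D (le_of_lt hm) hL)

end Pool.Agent.Helper86.OB
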