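import Pool.Agent.Helper73.OB.GoalsA

/-!
# Packet MODSYS of project OB (MP_fc0446_an)
-/

open MeasureTheory ProbabilityTheory
open scoped ENNReal

namespace Pool.Agent.Helper86.OB

open Pool.Agent.Helper73.OB

/-- Permuting the coordinates preserves a power measure. -/
lemma mp_perm {ι L : Type} [MeasurableSpace L] (law : Measure L) [IsProbabilityMeasure law]
    (e : ι ≃ ι) :
    MeasurePreserving (fun (ω : ι → L) (i : ι) => ω (e i)) (Measure.infinitePi fun _ : ι => law)
      (Measure.infinitePi fun _ : ι => law) := by
  refine ⟨by fun_prop, ?_⟩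
  have h := Measure.infinitePi_map_piCongrLeft (μ := fun _ : ι => law) e.symm

  have h2 : (fun (ω : ι → L) (i : ι) => ω (e i)) =
      (MeasurableEquiv.piCongrLeft (fun _ : ι => L) e.symm : (ι → L) → ι → L) := by
    funext ω i
    have := MeasurableEquiv.coe_piCongrLeft (π := fun _ : ι => L) e.symm
    rw [this]
    have h3 := Equiv.piCongrLeft_apply_apply (P := fun _ : ι => L) e.symm ω (e i)
    simpa using h3.symm
  rw [h2]
  exact h

theorem modsys : Pool.Agent.Helper73.OB.S_MODSYS := by
  intro S _ β hβ L _ law _
  have hs : ∀ s, MeasurePreserving (shiftR (L := L) β s) (iid β law) (iid β law) := by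
    intro s
    exact mp_perm law (lsEquiv hβ s)
  refine ⟨⟨hs, fun s ω => shiftR_inv hβ s ω⟩, measurable_pi_apply _, ?_⟩
  have h : field β (shiftR β) (fun ω : RW β → L => ω (rootW β)) = id := by
    funext ω
    exact field_model ω
  rw [h]
  exact MeasurePreserving.id _

end Pool.Agent.Helper86.OB
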