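import Pool.Agent.Helper73.OB.GoalsB

/-!
# Packet U1 of project OB (MP_fc0446_an): uniqueness of typed Markov systems on rectangles
-/

open MeasureTheory ProbabilityTheory
open scoped ENNReal

namespace Pool.Agent.Helper86.OB

open Pool.Agent.Helper73.OB

section Words

variable {S : Type}

lemma pc_append (p : Bit → S) (u v : List S) : pc p (u ++ v) = pc p u + pc p v := by
  unfold pc
  exact List.countP_append

lemma pc_cons_p (p : Bit → S) (z : Bit) (k : List S) : pc p (p z :: k) = pc p k + 1 := by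
  classical
  unfold pc
  rw [List.countP_cons_of_pos]
  simp

lemma pc_eq_zero {p : Bit → S} {k : List S} : pc p k = 0 ↔ IsH p k := by
  classical
  unfold pc IsH
  rw [List.countP_eq_zero]
  simp

/-- The decomposition at the last special letter. -/
lemma exists_last (p : Bit → S) (w : List S) (h : 0 < pc p w) :
    ∃ w' z k, w = w' ++ p z :: k ∧ IsH p k := by
  induction w with
  | nil => simp [pc] at h
  | cons a w ih =>
    by_cases h1 : 0 < pc p w
    · obtain ⟨w', z, k, hw, hk⟩ := ih h1
      exact ⟨a :: w', z, k, by rw [hw]; rfl, hk⟩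
    · have h2 : IsH p w := pc_eq_zero.1 (by omega)
      have h3 : a ∈ Set.range p := by
        by_contra h3
        have h4 : IsH p (a :: w) := by
          intro b hb
          rcases List.mem_cons.1 hb with rfl | hb
          · exact h3
          · exact h2 b hb
        rw [pc_eq_zero.2 h4] at h
        exact lt_irrefl _ h
      obtain ⟨z, rfl⟩ := h3
      exact ⟨[], z, w, rfl, h2⟩

end Words

section One

variable {S X : Type} [Finite S] [MeasurableSpace X] {β : S → S} {p : Bit → S} {δ : Bit}
  {e : unitInterval} {μ : Measure X} {f : S → X → X} {s : X → Sk}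

lemma meas_run (hf : Sys β μ f) (hs : TM β p δ e μ f s) (w : List S) :
    Measurable fun x => s (run f w x) := hs.meas.comp (hf.run_mp w).measurable

/-- Rectangles over H-words. -/
lemma rect_H (hs : TM β p δ e μ f s) (A : Finset (List S)) (E : List S → Set Sk)
    (hA : ∀ w ∈ A, Red β w ∧ IsH p w) (hE : ∀ w, MeasurableSet (E w)) :
    μ {x | ∀ w ∈ A, s (run f w x) ∈ E w} =
      (Measure.infinitePi fun _ : HW β p => kap e) {ω | ∀ h : HW β p, h.1 ∈ A → ω h ∈ E h.1} := by
  have hm : MeasurableSet {ω : HW β p → Sk | ∀ h : HW β p, h.1 ∈ A → ω h ∈ E h.1} := by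
    have : {ω : HW β p → Sk | ∀ h : HW β p, h.1 ∈ A → ω h ∈ E h.1} =
        ⋂ h : HW β p, ⋂ _ : h.1 ∈ A, (fun ω : HW β p → Sk => ω h) ⁻¹' E h.1 := by
      ext ω
      simp
    rw [this]
    exact MeasurableSet.iInter fun h => MeasurableSet.iInter fun _ =>
      (measurable_pi_apply h) (hE h.1)
  rw [← hs.cos.measure_preimage hm.nullMeasurableSet]
  congr 1
  ext x
  constructor
  · intro h k hk
    exact h k.1 hk
  · intro h w hw
    exact h ⟨w, hA w hw⟩ hw

lemma meas_rect (hf : Sys β μ f) (hs : TM β p δ e μ f s) (A : Finset (List S))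
    (E : List S → Set Sk) (hE : ∀ w, MeasurableSet (E w)) :
    MeasurableSet {x | ∀ w ∈ A, s (run f w x) ∈ E w} := by
  have : {x | ∀ w ∈ A, s (run f w x) ∈ E w} =
      ⋂ w : List S, ⋂ _ : w ∈ A, (fun x => s (run f w x)) ⁻¹' E w := by
    ext x
    simp
  rw [this]
  exact MeasurableSet.iInter fun w => MeasurableSet.iInter fun _ => meas_run hf hs w (hE w)

lemma sig_meas {L : Type} [MeasurableSpace L] (f : S → X → X) (s : X → L) {Q : Set (List S)}
    {w : List S} (hw : w ∈ Q) : @Measurable X L (sig f s Q) _ (fun x => s (run f w x)) := by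
  rw [measurable_iff_comap_le]
  exact le_iSup₂ (f := fun w _ => MeasurableSpace.comap (fun x => s (run f w x)) inferInstance) w hw

lemma meas_bit (d z c : Bit) : MeasurableSet {t : Sk | t.2.1 d z = c} := by
  have h : Measurable fun t : Sk => t.2.1 d z :=
    (measurable_pi_apply z).comp ((measurable_pi_apply d).comp (measurable_fst.comp measurable_snd))
  exact h (MeasurableSet.singleton c)

lemma sum_bit (g : Bit → ℝ≥0∞) : ∑ c : Bit, g c = g 0 + g 1 := Fin.sum_univ_two g

/-- `glue` summed over the two values of the bit. -/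
lemma glue_sum (hs : TM β p δ e μ f s) (z : Bit) (E F : Set X)
    (hE : MeasurableSet[sig f s (Side β (p z))] E)
    (hF : MeasurableSet[sig f s (Side β (β (p z)))] F) :
    μ (E ∩ f (p z) ⁻¹' F) = ∑ c : Bit, 2 * μ ({x | (s x).2.1 δ z = c} ∩ E) *
        μ ({x | (s x).2.1 δ (z + 1 + δ) = c + δ} ∩ F) := by
  have hb : MeasurableSet {x | (s x).2.1 δ z = 0} := hs.meas (meas_bit δ z 0)
  have h1 := measure_inter_add_diff (μ := μ) (E ∩ f (p z) ⁻¹' F) hb
  have h2 : (E ∩ f (p z) ⁻¹' F) ∩ {x | (s x).2.1 δ z = 0} =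
      {x | (s x).2.1 δ z = 0} ∩ E ∩ f (p z) ⁻¹' F := by
    ext x
    simp only [Set.mem_inter_iff, Set.mem_setOf_eq, Set.mem_preimage]
    tauto
  have h01 : ∀ b : Bit, ¬ b = 0 ↔ b = 1 := by decide
  have h3 : (E ∩ f (p z) ⁻¹' F) \ {x | (s x).2.1 δ z = 0} =
      {x | (s x).2.1 δ z = 1} ∩ E ∩ f (p z) ⁻¹' F := by
    ext x
    simp only [Set.mem_inter_iff, Set.mem_setOf_eq, Set.mem_preimage, Set.mem_diff, h01]
    tauto
  rw [← h1, h2, h3, hs.glue z 0 E F hE hF, hs.glue z 1 E F hE hF]
  rw [sum_bit]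

open Classical in
/-- The reduction of a rectangle at the word `w' ++ [p z]`. -/
lemma split (hFr : Fr β p δ) (hf : Sys β μ f) (hs : TM β p δ e μ f s) (A : Finset (List S))
    (E : List S → Set Sk) (hE : ∀ w, MeasurableSet (E w)) (hA : ∀ w ∈ A, Red β w)
    (w' : List S) (z : Bit) (hw' : Red β (w' ++ [p z])) :
    μ {x | ∀ w ∈ A, s (run f w x) ∈ E w} = ∑ c : Bit,
      2 * μ {x | ∀ w ∈ insert w' (A.filter fun u => ¬ ∃ k, u = w' ++ p z :: k),
        s (run f w x) ∈ {t : Sk | (w ∈ (A.filter fun u => ¬ ∃ k, u = w' ++ p z :: k) → t ∈ E w) ∧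
          (w = w' → t.2.1 δ z = c)}} *
      μ {x | ∀ w ∈ insert [] (A.preimage (fun k => w' ++ p z :: k) (fun _ _ _ _ h => by simpa using h)),
        s (run f w x) ∈ {t : Sk | (w' ++ p z :: w ∈ A → t ∈ E (w' ++ p z :: w)) ∧
          (w = [] → t.2.1 δ (z + 1 + δ) = c + δ)}} := by
  set A₂ : Finset (List S) := A.filter fun u => ¬ ∃ k, u = w' ++ p z :: k with hA₂
  set EE : Set X := {x | ∀ u ∈ A₂, s (run f (red β (invw β w' ++ u)) x) ∈ E u} with hEE
  set FF : Set X := {y | ∀ k, w' ++ p z :: k ∈ A → s (run f k y) ∈ E (w' ++ p z :: k)} with hFF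
  have mE : MeasurableSet[sig f s (Side β (p z))] EE := by
    have : EE = ⋂ u : List S, ⋂ _ : u ∈ A₂,
        (fun x => s (run f (red β (invw β w' ++ u)) x)) ⁻¹' E u := by
      ext x
      simp [hEE]
    rw [this]
    refine MeasurableSet.iInter fun u => MeasurableSet.iInter fun hu => ?_
    refine (sig_meas f s (Q := Side β (p z)) ⟨red_Red β _, ?_⟩) (hE u)
    intro hh
    obtain ⟨hu1, hu2⟩ := Finset.mem_filter.1 hu
    apply hu2
    cases hr : red β (invw β w' ++ u) with
    | nil => rw [hr] at hh; simp at hh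
    | cons a v =>
      rw [hr] at hh
      have ha : a = p z := by simpa using hh
      subst ha
      exact ⟨v, prefix_of_head hFr.inv (hA u hu1) hw' hr⟩
  have mF : MeasurableSet[sig f s (Side β (β (p z)))] FF := by
    have : FF = ⋂ k : List S, ⋂ _ : w' ++ p z :: k ∈ A,
        (fun x => s (run f k x)) ⁻¹' E (w' ++ p z :: k) := by
      ext x
      simp [hFF]
    rw [this]
    refine MeasurableSet.iInter fun k => MeasurableSet.iInter fun hk => ?_
    have hr := hA _ hk
    have hr2 : Red β (p z :: k) := hr.right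
    refine (sig_meas f s (Q := Side β (β (p z))) ⟨List.IsChain.tail hr2, ?_⟩) (hE _)
    intro hh
    cases k with
    | nil => simp at hh
    | cons b k =>
      have hb : b = β (p z) := by simpa using hh
      exact (List.isChain_cons_cons.1 hr2).1 hb
  have mp := hf.run_mp (invw β w')
  have hrun : ∀ (u : List S) (x : X), run f u (run f (invw β w') x) =
      run f (red β (invw β w' ++ u)) x := by
    intro u x
    rw [run_red hf.inv, run_append]
  have hback : ∀ x, run f w' (run f (invw β w') x) = x := run_invw' hFr.inv hf.inv w'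
  have hset : run f (invw β w') ⁻¹' {x | ∀ w ∈ A, s (run f w x) ∈ E w} =
      EE ∩ f (p z) ⁻¹' FF := by
    ext x
    simp only [Set.mem_preimage, Set.mem_setOf_eq, Set.mem_inter_iff, hEE, hFF]
    constructor
    · intro h
      refine ⟨fun u hu => ?_, fun k hk => ?_⟩
      · rw [← hrun]
        exact h u (Finset.mem_filter.1 hu).1
      · have := h _ hk
        rwa [run_append, hback, run_cons] at this
    · rintro ⟨h1, h2⟩ u hu
      by_cases hk : ∃ k, u = w' ++ p z :: k
      · obtain ⟨k, rfl⟩ := hk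
        rw [run_append, hback, run_cons]
        exact h2 k hu
      · rw [hrun]
        exact h1 u (Finset.mem_filter.2 ⟨hu, hk⟩)
  rw [← mp.measure_preimage (meas_rect hf hs A E hE).nullMeasurableSet, hset,
    glue_sum hs z EE FF mE mF]
  refine Finset.sum_congr rfl fun c _ => ?_
  congr 1
  · congr 1
    rw [← mp.measure_preimage (meas_rect hf hs _ (fun w => {t : Sk | (w ∈ A₂ → t ∈ E w) ∧
      (w = w' → t.2.1 δ z = c)}) ?_).nullMeasurableSet]
    · congr 1
      ext x
      simp only [Set.mem_preimage, Set.mem_setOf_eq, Set.mem_inter_iff, hEE]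
      constructor
      · rintro ⟨h1, h2⟩ u hu
        refine ⟨fun hu2 => ?_, fun hu2 => ?_⟩
        · rw [hrun]
          exact h2 u hu2
        · rw [hu2, hback]
          exact h1
      · intro h
        refine ⟨?_, fun u hu => ?_⟩
        · have := (h w' (Finset.mem_insert_self _ _)).2 rfl
          rwa [hback] at this
        · rw [← hrun]
          exact (h u (Finset.mem_insert_of_mem hu)).1 hu
    · intro w
      have : {t : Sk | (w ∈ A₂ → t ∈ E w) ∧ (w = w' → t.2.1 δ z = c)} =
          (⋂ _ : w ∈ A₂, E w) ∩ ⋂ _ : w = w', {t : Sk | t.2.1 δ z = c} := by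
        ext t
        simp
      rw [this]
      exact (MeasurableSet.iInter fun _ => hE w).inter (MeasurableSet.iInter fun _ =>
        meas_bit δ z c)
  · congr 1
    ext x
    simp only [Set.mem_setOf_eq, Set.mem_inter_iff, hFF]
    constructor
    · rintro ⟨h1, h2⟩ k hk
      refine ⟨fun hk2 => h2 k hk2, fun hk2 => ?_⟩
      rw [hk2]
      exact h1
    · intro h
      refine ⟨(h [] (Finset.mem_insert_self _ _)).2 rfl, fun k hk => ?_⟩
      exact (h k (Finset.mem_insert_of_mem (Finset.mem_preimage.2 hk))).1 hk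

end One

theorem u1 : Pool.Agent.Helper73.OB.S_U1 := by
  classical
  intro S _ β p δ hFr e X X' _ _ μ μ' _ _ f f' hf hf' s s' hs hs'
  suffices H : ∀ n : ℕ, ∀ (A : Finset (List S)) (E : List S → Set Sk), (∀ w ∈ A, Red β w) →
      (∀ w, MeasurableSet (E w)) → ∑ w ∈ A, pc p w ≤ n →
      μ {x | ∀ w ∈ A, s (run f w x) ∈ E w} = μ' {x | ∀ w ∈ A, s' (run f' w x) ∈ E w} by
    intro A E hA hE
    exact H _ A E hA hE le_rfl
  have base : ∀ (A : Finset (List S)) (E : List S → Set Sk), (∀ w ∈ A, Red β w ∧ IsH p w) →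
      (∀ w, MeasurableSet (E w)) →
      μ {x | ∀ w ∈ A, s (run f w x) ∈ E w} = μ' {x | ∀ w ∈ A, s' (run f' w x) ∈ E w} := by
    intro A E hA hE
    rw [rect_H hs A E hA hE, rect_H hs' A E hA hE]
  intro n
  induction n with
  | zero =>
    intro A E hA hE h0
    refine base A E (fun w hw => ⟨hA w hw, pc_eq_zero.1 ?_⟩) hE
    exact Finset.sum_eq_zero_iff.1 (Nat.le_zero.1 h0) w hw
  | succ n ih =>
    intro A E hA hE hn
    by_cases h0 : ∀ w ∈ A, pc p w = 0
    · exact base A E (fun w hw => ⟨hA w hw, pc_eq_zero.1 (h0 w hw)⟩) hE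
    push Not at h0
    obtain ⟨w₀, hw₀, hp₀⟩ := h0
    obtain ⟨w, hwA, hmax⟩ := Finset.exists_max_image A (pc p) ⟨w₀, hw₀⟩
    have hpw : 0 < pc p w := lt_of_lt_of_le (Nat.pos_of_ne_zero hp₀) (hmax w₀ hw₀)
    obtain ⟨w', z, k, hw, hk⟩ := exists_last p w hpw
    have hw2 : w = (w' ++ [p z]) ++ k := by rw [hw]; simp
    have hRw : Red β ((w' ++ [p z]) ++ k) := hw2 ▸ hA w hwA
    have hRw' : Red β (w' ++ [p z]) := hRw.left
    have hpcw : pc p w = pc p w' + 1 := by
      rw [hw, pc_append, pc_cons_p, pc_eq_zero.2 hk]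
    rw [split hFr hf hs A E hE hA w' z hRw', split hFr hf' hs' A E hE hA w' z hRw']
    set A₂ : Finset (List S) := A.filter fun u => ¬ ∃ k, u = w' ++ p z :: k with hA₂
    refine Finset.sum_congr rfl fun c _ => ?_
    congr 1
    · congr 1
      refine ih (insert w' A₂) (fun w => {t : Sk | (w ∈ A₂ → t ∈ E w) ∧
        (w = w' → t.2.1 δ z = c)}) ?_ ?_ ?_
      · intro u hu
        rcases Finset.mem_insert.1 hu with rfl | hu
        · exact hRw'.left
        · exact hA u (Finset.mem_filter.1 hu).1
      · intro w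
        have : {t : Sk | (w ∈ A₂ → t ∈ E w) ∧ (w = w' → t.2.1 δ z = c)} =
            (⋂ _ : w ∈ A₂, E w) ∩ ⋂ _ : w = w', {t : Sk | t.2.1 δ z = c} := by
          ext t
          simp
        rw [this]
        exact (MeasurableSet.iInter fun _ => hE w).inter (MeasurableSet.iInter fun _ =>
          meas_bit δ z c)
      · have h1 : ∑ u ∈ insert w' A₂, pc p u ≤ pc p w' + ∑ u ∈ A₂, pc p u := by
          by_cases h : w' ∈ A₂
          · rw [Finset.insert_eq_of_mem h]
            exact Nat.le_add_left _ _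
          · rw [Finset.sum_insert h]
        have h2 : ∑ u ∈ insert w A₂, pc p u ≤ ∑ u ∈ A, pc p u := by
          refine Finset.sum_le_sum_of_subset ?_
          intro u hu
          rcases Finset.mem_insert.1 hu with rfl | hu
          · exact hwA
          · exact (Finset.mem_filter.1 hu).1
        have h3 : w ∉ A₂ := by
          intro h
          exact (Finset.mem_filter.1 h).2 ⟨k, hw⟩
        rw [Finset.sum_insert h3] at h2
        omega
    · refine base _ (fun w => {t : Sk | (w' ++ p z :: w ∈ A → t ∈ E (w' ++ p z :: w)) ∧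
          (w = [] → t.2.1 δ (z + 1 + δ) = c + δ)}) ?_ ?_
      · intro u hu
        rcases Finset.mem_insert.1 hu with rfl | hu
        · exact ⟨List.isChain_nil, fun a ha => by simp at ha⟩
        · have hu2 : w' ++ p z :: u ∈ A :=
            (Finset.mem_preimage (f := fun k => w' ++ p z :: k)).1 hu
          have hr := hA _ hu2
          have hr2 : Red β (p z :: u) := hr.right
          refine ⟨List.IsChain.tail hr2, pc_eq_zero.1 ?_⟩
          have h1 := hmax _ hu2
          rw [pc_append, pc_cons_p, hpcw] at h1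
          omega
      · intro w
        have : {t : Sk | (w' ++ p z :: w ∈ A → t ∈ E (w' ++ p z :: w)) ∧
            (w = [] → t.2.1 δ (z + 1 + δ) = c + δ)} =
            (⋂ _ : w' ++ p z :: w ∈ A, E (w' ++ p z :: w)) ∩
              ⋂ _ : w = [], {t : Sk | t.2.1 δ (z + 1 + δ) = c + δ} := by
          ext t
          simp
        rw [this]
        exact (MeasurableSet.iInter fun _ => hE _).inter (MeasurableSet.iInter fun _ =>
          meas_bit δ _ _)

end Pool.Agent.Helper86.OB
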