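import Pool.Agent.Helper79.OB.GoalsC

/-!
# Packet NEAR of project OB (MP_fc0446_an)
-/

open MeasureTheory
open scoped ENNReal

namespace Pool.Agent.Helper86.OB

open Pool.Agent.Helper73.OB Pool.Agent.Helper79.OB

section Near

variable {S X : Type}

lemma reach_mono {f : S → X → X} {k l : ℕ} (h : k ≤ l) {x y : X} (hr : Reach f k x y) :
    Reach f l x y := by
  obtain ⟨w, hw, hy⟩ := hr
  exact ⟨w, hw.trans h, hy⟩

lemma reach_zero {f : S → X → X} {x y : X} : Reach f 0 x y ↔ x = y := by
  constructor
  · rintro ⟨w, hw, hy⟩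
    have : w = [] := List.length_eq_zero_iff.1 (Nat.le_zero.1 hw)
    subst this
    simpa using hy
  · rintro rfl
    exact ⟨[], le_rfl, rfl⟩

lemma reach_step {f : S → X → X} {k : ℕ} {x z : X} (h : Reach f k x z) (a : S) :
    Reach f (k + 1) x (f a z) := by
  obtain ⟨w, hw, rfl⟩ := h
  refine ⟨w ++ [a], ?_, ?_⟩
  · simp only [List.length_append, List.length_cons, List.length_nil]
    omega
  · rw [run_append]
    rfl

lemma reach_succ {f : S → X → X} {k : ℕ} {x y : X} (h : Reach f (k + 1) x y) :
    Reach f k x y ∨ ∃ z a, Reach f k x z ∧ y = f a z := by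
  obtain ⟨w, hw, rfl⟩ := h
  rcases List.eq_nil_or_concat w with rfl | ⟨u, a, rfl⟩
  · exact Or.inl ⟨[], Nat.zero_le _, rfl⟩
  · right
    refine ⟨run f u x, a, ⟨u, ?_, rfl⟩, ?_⟩
    · simp only [List.concat_eq_append, List.length_append, List.length_cons,
        List.length_nil] at hw
      omega
    · rw [List.concat_eq_append, run_append]
      rfl

lemma near1 {f g : S → X → X} {n : ℕ} {x : X} (h : Near f g n x) :
    ∀ k ≤ n + 1, ∀ y, Reach f k x y ↔ Reach g k x y := by
  intro k
  induction k with
  | zero =>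
    intro _ y
    rw [reach_zero, reach_zero]
  | succ k ih =>
    intro hk y
    have ih' := ih (by omega)
    constructor
    · intro hy
      rcases reach_succ hy with hy | ⟨z, a, hz, rfl⟩
      · exact reach_mono (Nat.le_succ k) ((ih' y).1 hy)
      · obtain ⟨u, hu, rfl⟩ := hz
        have h1 := h u (by omega)
        have h2 : f a (run f u x) ∈ Set.range (fun a => g a (run f u x)) := by
          rw [← h1]
          exact ⟨a, rfl⟩
        obtain ⟨b, hb⟩ := h2
        have hb' : g b (run f u x) = f a (run f u x) := hb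
        rw [← hb']
        exact reach_step ((ih' _).1 ⟨u, hu, rfl⟩) b
    · intro hy
      rcases reach_succ hy with hy | ⟨z, a, hz, rfl⟩
      · exact reach_mono (Nat.le_succ k) ((ih' y).2 hy)
      · obtain ⟨u, hu, rfl⟩ := (ih' z).2 hz
        have h1 := h u (by omega)
        have h2 : g a (run f u x) ∈ Set.range (fun a => f a (run f u x)) := by
          rw [h1]
          exact ⟨a, rfl⟩
        obtain ⟨b, hb⟩ := h2
        have hb' : f b (run f u x) = g a (run f u x) := hb
        rw [← hb']
        exact reach_step ⟨u, hu, rfl⟩ b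

lemma near2 {f g : S → X → X} {n : ℕ} {x : X} (h : Near f g n x) : Near g f n x := by
  intro w hw
  obtain ⟨u, hu, hu2⟩ := (near1 h n (Nat.le_succ n) (run g w x)).2 ⟨w, hw, rfl⟩
  rw [← hu2]
  exact (h u hu).symm

lemma near3 {f g h : S → X → X} {n : ℕ} {x : X} (h1 : Near f g n x) (h2 : Near g h n x) :
    Near f h n x := by
  intro w hw
  obtain ⟨u, hu, hu2⟩ := (near1 h1 n (Nat.le_succ n) (run f w x)).1 ⟨w, hw, rfl⟩
  rw [h1 w hw, ← hu2]
  exact h2 u hu

lemma dst_le {f : S → X → X} {y y' : X} {w : List S} (h : run f w y = y') :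
    dst f y y' ≤ (w.length : ℕ∞) := iInf₂_le (f := fun (w : List S) (_ : run f w y = y') =>
      (w.length : ℕ∞)) w h

lemma near_path {f g : S → X → X} {m R : ℕ} {x y : X} (h : Near f g m x) (hy : Reach f R x y)
    (w : List S) (hw : R + w.length ≤ m + 1) :
    ∃ w' : List S, w'.length = w.length ∧ run g w' y = run f w y := by
  induction w using List.reverseRecOn with
  | nil => exact ⟨[], rfl, rfl⟩
  | append_singleton u a ih =>
    simp only [List.length_append, List.length_cons, List.length_nil] at hw
    obtain ⟨u', hu', hu2⟩ := ih (by omega)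
    obtain ⟨v, hv, rfl⟩ := hy
    have h1 := h (v ++ u) (by rw [List.length_append]; omega)
    rw [run_append] at h1
    have h2 : f a (run f u (run f v x)) ∈ Set.range (fun a => g a (run f u (run f v x))) := by
      rw [← h1]
      exact ⟨a, rfl⟩
    obtain ⟨b, hb⟩ := h2
    have hb' : g b (run f u (run f v x)) = f a (run f u (run f v x)) := hb
    refine ⟨u' ++ [b], by simp [hu'], ?_⟩
    rw [run_append, hu2, run_append]
    exact hb'

lemma near_dst {f g : S → X → X} {β' : S → S} (hg : ∀ a x, g (β' a) (g a x) = x) {R : ℕ} {x : X}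
    (h : Near f g (3 * R) x) {y y' : X} (hy : Reach f R x y) (hy' : Reach f R x y') :
    dst g y y' ≤ dst f y y' := by
  refine le_iInf₂ fun w hw => ?_
  rcases le_or_gt w.length (2 * R) with hl | hl
  · obtain ⟨w', hw', h2⟩ := near_path h hy w (by omega)
    rw [← hw']
    exact dst_le (h2.trans hw)
  · obtain ⟨v, hv, hv2⟩ := (near1 h R (by omega) y).1 hy
    obtain ⟨v', hv', hv2'⟩ := (near1 h R (by omega) y').1 hy'
    have h3 : run g (invw β' v ++ v') y = y' := by
      rw [run_append, ← hv2, run_invw hg, hv2']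
    refine (dst_le h3).trans ?_
    have h4 : (invw β' v ++ v').length ≤ w.length := by
      simp only [List.length_append, invw, List.length_reverse, List.length_map]
      omega
    exact_mod_cast h4

end Near

theorem th_near : Pool.Agent.Helper79.OB.S_NEAR := by
  intro S X f g h n x
  refine ⟨near1, near2, near3, ?_⟩
  intro β β' hf hg R hN y y' hy hy'
  refine le_antisymm ?_ (near_dst hg hN hy hy')
  exact near_dst hf (near2 hN) ((near1 hN R (by omega) y).1 hy) ((near1 hN R (by omega) y').1 hy')

end Pool.Agent.Helper86.OB
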