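import Pool.Agent.Helper73.OB.GoalsA

/-!
# Packet ISO of project OB (MP_fc0446_an)

Atomless standard Borel probability spaces are isomorphic to the unit interval.
-/

open MeasureTheory ProbabilityTheory
open scoped ENNReal

namespace Pool.Agent.Helper86.OB

open Pool.Agent.Helper73.OB

/-- The distribution function of an atomless probability measure is continuous. -/
lemma cdf_continuous (ν : Measure ℝ) [IsProbabilityMeasure ν] [NullSingletonClass ν] :
    Continuous (cdf ν) := by
  rw [continuous_iff_continuousAt]
  intro x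
  rw [(monotone_cdf ν).continuousAt_iff_leftLim_eq_rightLim, StieltjesFunction.rightLim_eq]
  have h1 := (cdf ν).measure_singleton x
  rw [measure_cdf, measure_singleton] at h1
  have h2 : (cdf ν) x - Function.leftLim (cdf ν) x ≤ 0 := ENNReal.ofReal_eq_zero.1 h1.symm
  have h3 : Function.leftLim (cdf ν) x ≤ (cdf ν) x := (monotone_cdf ν).leftLim_le le_rfl
  linarith

/-- The distribution function takes all the values between `0` and `1`. -/
lemma cdf_surj (ν : Measure ℝ) [IsProbabilityMeasure ν] [NullSingletonClass ν] {t : ℝ}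
    (h0 : 0 < t) (h1 : t < 1) : ∃ x, cdf ν x = t := by
  have hc := cdf_continuous ν
  refine mem_range_of_exists_le_of_exists_ge hc ?_ ?_
  · obtain ⟨a, ha⟩ := ((tendsto_cdf_atBot ν).eventually (gt_mem_nhds h0)).exists
    exact ⟨a, ha.le⟩
  · obtain ⟨a, ha⟩ := ((tendsto_cdf_atTop ν).eventually (lt_mem_nhds h1)).exists
    exact ⟨a, ha.le⟩

lemma cdf_unif (ν : Measure ℝ) [IsProbabilityMeasure ν] [NullSingletonClass ν] {t : ℝ}
    (h0 : 0 ≤ t) (h1 : t ≤ 1) : ν {x | cdf ν x ≤ t} = ENNReal.ofReal t := by
  apply le_antisymm
  · rcases h1.eq_or_lt with rfl | h1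
    · rw [ENNReal.ofReal_one]
      exact prob_le_one
    · refine le_of_forall_gt_imp_ge_of_dense fun b hb => ?_
      rcases le_or_gt 1 b with hb1 | hb1
      · exact prob_le_one.trans hb1
      · have hbt : b ≠ ⊤ := ne_top_of_lt (hb1.trans ENNReal.one_lt_top)
        have hb2 : t < b.toReal := by
          rwa [← ENNReal.ofReal_lt_iff_lt_toReal h0 hbt]
        have hb3 : b.toReal < 1 := by
          have := (ENNReal.toReal_lt_toReal hbt ENNReal.one_ne_top).2 hb1
          simpa using this
        obtain ⟨x, hx⟩ := cdf_surj ν (h0.trans_lt hb2) hb3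
        have hsub : {y | cdf ν y ≤ t} ⊆ Set.Iic x := by
          intro y hy
          by_contra hxy
          have hxy' : x < y := not_le.1 hxy
          have := monotone_cdf ν hxy'.le
          rw [hx] at this
          have hy' : cdf ν y ≤ t := hy
          linarith
        calc ν {y | cdf ν y ≤ t} ≤ ν (Set.Iic x) := measure_mono hsub
          _ = ENNReal.ofReal (cdf ν x) := (ofReal_cdf ν x).symm
          _ = b := by rw [hx, ENNReal.ofReal_toReal hbt]
  · rcases h0.eq_or_lt with rfl | h0
    · simp
    · rcases h1.eq_or_lt with rfl | h1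
      · have : {x | cdf ν x ≤ 1} = Set.univ := by
          ext x
          simp [cdf_le_one]
        rw [this, measure_univ, ENNReal.ofReal_one]
      · obtain ⟨x, hx⟩ := cdf_surj ν h0 h1
        rw [← hx, ofReal_cdf]
        refine measure_mono fun y hy => ?_
        exact monotone_cdf ν hy

theorem iso : Pool.Agent.Helper73.OB.S_ISO := by
  intro L _ _ law _ _
  have hne : Nonempty L := by
    by_contra h
    rw [not_nonempty_iff] at h
    have h1 : law Set.univ = 0 := by
      rw [Set.univ_eq_empty_iff.2 h, measure_empty]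
    rw [measure_univ] at h1
    exact one_ne_zero h1
  set e := embeddingReal L with he
  have hemb : MeasurableEmbedding e := measurableEmbedding_embeddingReal L
  set ν : Measure ℝ := law.map e with hν
  have : IsProbabilityMeasure ν := Measure.isProbabilityMeasure_map hemb.measurable.aemeasurable
  have : NullSingletonClass ν := by
    refine ⟨fun x => ?_⟩
    rw [hν, Measure.map_apply hemb.measurable (measurableSet_singleton x)]
    have hs : (e ⁻¹' {x}).Subsingleton := by
      intro a ha b hb
      exact hemb.injective ((show e a = x from ha).trans (show e b = x from hb).symm)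
    exact hs.measure_zero law
  set j : L → unitInterval := fun a => ⟨cdf ν (e a), cdf_nonneg ν _, cdf_le_one ν _⟩ with hj
  have hjm : Measurable j :=
    ((cdf_continuous ν).measurable.comp hemb.measurable).subtype_mk
  have hjmap : law.map j = volume := by
    have : IsProbabilityMeasure (law.map j) :=
      Measure.isProbabilityMeasure_map hjm.aemeasurable
    refine Measure.ext_of_Iic _ _ fun t => ?_
    rw [Measure.map_apply hjm measurableSet_Iic, unitInterval.volume_Iic]
    have h1 : j ⁻¹' Set.Iic t = e ⁻¹' {x | cdf ν x ≤ (t : ℝ)} := by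
      ext a
      rfl
    rw [h1, ← Measure.map_apply hemb.measurable
      (measurableSet_le (cdf_continuous ν).measurable measurable_const)]
    exact cdf_unif ν t.2.1 t.2.2
  have hmp : MeasurePreserving j law volume := ⟨hjm, hjmap⟩
  set G : Set L := {a | ∀ q : ℚ, cdf ν (e a) ≠ cdf ν (q : ℝ)} with hG
  have hGm : MeasurableSet G := by
    have : G = ⋂ q : ℚ, {a | cdf ν (e a) = cdf ν (q : ℝ)}ᶜ := by
      ext a
      simp [hG]
    rw [this]
    exact MeasurableSet.iInter fun q => (measurableSet_eq_fun
      ((cdf_continuous ν).measurable.comp hemb.measurable) measurable_const).compl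
  have hGfull : ∀ᵐ a ∂law, a ∈ G := by
    rw [show (∀ᵐ a ∂law, a ∈ G) ↔ ∀ᵐ a ∂law, ∀ q : ℚ, cdf ν (e a) ≠ cdf ν (q : ℝ) from Iff.rfl,
      ae_all_iff]
    intro q
    have h1 : ∀ᵐ t ∂(volume : Measure unitInterval),
        t ≠ ⟨cdf ν (q : ℝ), cdf_nonneg ν _, cdf_le_one ν _⟩ := by
      rw [ae_iff]
      simp
    have h2 := hmp.quasiMeasurePreserving.ae h1
    filter_upwards [h2] with a ha h3
    exact ha (Subtype.ext h3)
  have : StandardBorelSpace G := hGm.standardBorel
  have hinj : Function.Injective fun a : G => j a.1 := by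
    intro a b hab
    have hab' : cdf ν (e a.1) = cdf ν (e b.1) := congrArg Subtype.val hab
    apply Subtype.ext
    apply hemb.injective
    by_contra hne2
    rcases lt_or_gt_of_ne hne2 with hlt | hlt
    · obtain ⟨q, hq1, hq2⟩ := exists_rat_btwn hlt
      apply a.2 q
      apply le_antisymm (monotone_cdf ν hq1.le)
      rw [hab']
      exact monotone_cdf ν hq2.le
    · obtain ⟨q, hq1, hq2⟩ := exists_rat_btwn hlt
      apply b.2 q
      apply le_antisymm (monotone_cdf ν hq1.le)
      rw [← hab']
      exact monotone_cdf ν hq2.le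
  have hGemb : MeasurableEmbedding fun a : G => j a.1 :=
    (hjm.comp measurable_subtype_coe).measurableEmbedding hinj
  obtain ⟨j', hj', hjj⟩ := hGemb.exists_measurable_extend (g := fun a : G => a.1)
    measurable_subtype_coe (fun _ => hne)
  have h1 : ∀ᵐ a ∂law, j' (j a) = a := by
    filter_upwards [hGfull] with a ha
    exact congrFun hjj ⟨a, ha⟩
  refine ⟨j, j', hmp, ⟨hj', ?_⟩, h1, ?_⟩
  · rw [← hjmap, Measure.map_map hj' hjm]
    have h2 : (j' ∘ j) =ᵐ[law] id := h1
    rw [Measure.map_congr h2, Measure.map_id]
  · have h3 : MeasurableSet {t : unitInterval | j (j' t) = t} :=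
      measurableSet_eq_fun (hjm.comp hj') measurable_id
    rw [← hjmap, ae_map_iff hjm.aemeasurable h3]
    filter_upwards [h1] with a ha
    rw [ha]

end Pool.Agent.Helper86.OB
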